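import Pool.Agent.Lib.MP_acd137_lc.PD.Stable

/-!
# MP_acd137_lc / PD / Comb: two words of equal length with the same type (helper90)
-/

set_option autoImplicit false

namespace MPacdPD

open Filter StateTransition Relation

/-- the word and the last type of a sequence of choices -/
def walk {T : Type} (v : T → Bool → List ℕ) (nx : T → Bool → T) : T → List Bool → List ℕ × T
  | τ, [] => ([], τ)
  | τ, c :: α => ((if c then 1 else 0) :: (v τ c ++ (walk v nx (nx τ c) α).1),
      (walk v nx (nx τ c) α).2)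

theorem walk_inj {T : Type} (v : T → Bool → List ℕ) (nx : T → Bool → T) (α : List Bool) :
    ∀ (α' : List Bool) (τ : T), α.length = α'.length →
      (walk v nx τ α).1 = (walk v nx τ α').1 → α = α' := by
  induction α with
  | nil =>
    intro α' τ hl _
    exact (List.length_eq_zero_iff.1 hl.symm).symm
  | cons c α ih =>
    intro α' τ hl h
    rcases α' with _ | ⟨c', α'⟩
    · simp at hl
    · simp only [walk, List.cons.injEq] at h
      have hc : c = c' := by
        rcases c <;> rcases c' <;> simp at h ⊢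
      subst hc
      rw [ih α' (nx τ c) (by simpa using hl) (List.append_cancel_left h.2)]

theorem walk_len {T : Type} (v : T → Bool → List ℕ) (nx : T → Bool → T) (S : ℕ)
    (hS : ∀ τ c, (v τ c).length + 1 ≤ S) (α : List Bool) :
    ∀ τ, (walk v nx τ α).1.length ≤ S * α.length := by
  induction α with
  | nil => intro τ; simp [walk]
  | cons c α ih =>
    intro τ
    simp only [walk, List.length_cons, List.length_append]
    have h1 := ih (nx τ c)
    have h2 := hS τ c
    rw [Nat.mul_add, Nat.mul_one]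
    omega

/-- pigeonhole -/
theorem walk_pig {T : Type} [Finite T] (v : T → Bool → List ℕ) (nx : T → Bool → T) (τ : T) :
    ∃ α α' : List Bool, (walk v nx τ α).1.length = (walk v nx τ α').1.length ∧
      (walk v nx τ α).1 ≠ (walk v nx τ α').1 ∧ (walk v nx τ α).2 = (walk v nx τ α').2 := by
  classical
  have := Fintype.ofFinite T
  obtain ⟨S, hS⟩ : ∃ S : ℕ, ∀ τ c, (v τ c).length + 1 ≤ S := by
    refine ⟨∑ p : T × Bool, ((v p.1 p.2).length + 1), fun τ c => ?_⟩
    exact Finset.single_le_sum (f := fun p : T × Bool => (v p.1 p.2).length + 1)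
      (fun _ _ => Nat.zero_le _) (Finset.mem_univ (τ, c))
  obtain ⟨K, hK⟩ : ∃ K : ℕ, K = Fintype.card T := ⟨_, rfl⟩
  obtain ⟨r, hr⟩ : ∃ r : ℕ, (S * r + 1) * K < 2 ^ r := by
    refine ⟨2 * ((2 * S + 1) * (K + 1)), ?_⟩
    obtain ⟨t, ht⟩ : ∃ t, t = (2 * S + 1) * (K + 1) := ⟨_, rfl⟩
    have h1 : t < 2 ^ t := Nat.lt_two_pow_self
    have h2 : 1 ≤ t := by
      rw [ht]
      exact Nat.one_le_iff_ne_zero.2 (by positivity)
    rw [← ht, two_mul, pow_add]
    calc (S * (t + t) + 1) * K ≤ ((2 * S + 1) * t) * (K + 1) := by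
          have : S * (t + t) + 1 ≤ (2 * S + 1) * t := by nlinarith
          exact Nat.mul_le_mul this (Nat.le_succ _)
      _ = t * t := by rw [ht]; ring
      _ < 2 ^ t * 2 ^ t := Nat.mul_lt_mul'' h1 h1
  obtain ⟨f, hf⟩ : ∃ f : (Fin r → Bool) → Fin (S * r + 1) × T, f = fun a =>
      (⟨(walk v nx τ (List.ofFn a)).1.length, Nat.lt_succ_of_le (by
        have := walk_len v nx S hS (List.ofFn a) τ
        rwa [List.length_ofFn] at this)⟩, (walk v nx τ (List.ofFn a)).2) := ⟨_, rfl⟩
  have hcard : Fintype.card (Fin (S * r + 1) × T) < Fintype.card (Fin r → Bool) := by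
    rw [Fintype.card_prod, Fintype.card_fin, Fintype.card_fun, Fintype.card_bool, Fintype.card_fin,
      ← hK]
    exact hr
  obtain ⟨a, a', hne, heq⟩ := Fintype.exists_ne_map_eq_of_card_lt f hcard
  rw [hf] at heq
  simp only [Prod.mk.injEq, Fin.mk.injEq] at heq
  refine ⟨List.ofFn a, List.ofFn a', heq.1, fun h => hne ?_, heq.2⟩
  exact List.ofFn_injective (walk_inj v nx (List.ofFn a) (List.ofFn a') τ (by simp) h)

variable {Q Γ β : Type} (M : StackMachine Q Γ β)

theorem dg_append {k : ℕ} {v w : List ℕ} (hv : Dg k v) (hw : Dg k w) : Dg k (v ++ w) := by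
  intro d hd
  rcases List.mem_append.1 hd with h | h
  · exact hv d h
  · exact hw d h

theorem dg_cons {k d : ℕ} {w : List ℕ} (hd : d < k) (hw : Dg k w) : Dg k (d :: w) := by
  intro x hx
  rcases List.mem_cons.1 hx with h | h
  · rw [h]; exact hd
  · exact hw x h

/-- from every type two different words of equal length lead to the same type -/
theorem two_words [Finite Q] [Finite Γ] (k : ℕ) (hk : 2 ≤ k) (τ : LType M k) :
    ∃ (w w' : List ℕ) (σ : LType M k), Dg k w ∧ Dg k w' ∧ w.length = w'.length ∧ w ≠ w' ∧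
      (∀ z, Dg k z → ∀ y, Res M τ.1.1 τ.1.2.toList (w ++ z) y → Res M σ.1.1 σ.1.2.toList z y) ∧
      ∀ z, Dg k z → ∀ y, Res M τ.1.1 τ.1.2.toList (w' ++ z) y → Res M σ.1.1 σ.1.2.toList z y := by
  classical
  have hfin : Finite (LType M k) := by
    unfold LType
    infer_instance
  have hd : ∀ c : Bool, (if c then 1 else 0) < k := by
    intro c
    rcases c
    · show 0 < k
      omega
    · show 1 < k
      omega
  choose v nx hv hnx using fun (τ : LType M k) (c : Bool) =>
    next M k τ (if c then 1 else 0) (hd c)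
  have hwalk : ∀ (α : List Bool) (τ : LType M k), Dg k (walk v nx τ α).1 ∧ ∀ z, Dg k z → ∀ y,
      Res M τ.1.1 τ.1.2.toList ((walk v nx τ α).1 ++ z) y →
      Res M (walk v nx τ α).2.1.1 (walk v nx τ α).2.1.2.toList z y := by
    intro α
    induction α with
    | nil =>
      intro τ
      refine ⟨fun d hd => (List.not_mem_nil hd).elim, fun z _ y hy => hy⟩
    | cons c α ih =>
      intro τ
      obtain ⟨h1, h2⟩ := ih (nx τ c)
      refine ⟨dg_cons (hd c) (dg_append (hv τ c) h1), fun z hz y hy => ?_⟩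
      apply h2 z hz y
      apply hnx τ c _ (dg_append h1 hz) y
      simpa only [walk, List.cons_append, List.append_assoc] using hy
  obtain ⟨α, α', h1, h2, h3⟩ := walk_pig v nx τ
  refine ⟨(walk v nx τ α).1, (walk v nx τ α').1, (walk v nx τ α).2, (hwalk α τ).1,
    (hwalk α' τ).1, h1, h2, (hwalk α τ).2, ?_⟩
  rw [h3]
  exact (hwalk α' τ).2

/-! ### digits -/

/-- the word of the last `l` base `k` digits of `r`, most significant digit first -/
def wd (k : ℕ) : ℕ → ℕ → List ℕ
  | 0, _ => []
  | l + 1, r => wd k l (r / k) ++ [r % k]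

theorem wd_length (k : ℕ) : ∀ l r, (wd k l r).length = l := by
  intro l
  induction l with
  | zero => intro r; rfl
  | succ l ih => intro r; simp [wd, ih]

theorem wd_dg {k : ℕ} (hk : 2 ≤ k) : ∀ l r, Dg k (wd k l r) := by
  intro l
  induction l with
  | zero => intro r d hd; exact (List.not_mem_nil hd).elim
  | succ l ih =>
    intro r
    refine dg_append (ih _) ?_
    intro d hd
    rw [List.mem_singleton] at hd
    rw [hd]
    exact Nat.mod_lt _ (by omega)

theorem wd_surj {k : ℕ} (hk : 2 ≤ k) (w : List ℕ) (hw : Dg k w) :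
    ∃ r, r < k ^ w.length ∧ wd k w.length r = w := by
  induction w using List.reverseRecOn with
  | nil => exact ⟨0, by simp, rfl⟩
  | append_singleton w d ih =>
    obtain ⟨r, hr, hr2⟩ := ih (fun x hx => hw x (List.mem_append_left _ hx))
    have hd : d < k := hw d (List.mem_append_right _ (List.mem_singleton.2 rfl))
    refine ⟨r * k + d, ?_, ?_⟩
    · rw [List.length_append, List.length_singleton, pow_succ]
      calc r * k + d < r * k + k := by omega
        _ = (r + 1) * k := by ring
        _ ≤ k ^ w.length * k := Nat.mul_le_mul_right _ hr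
    · rw [List.length_append, List.length_singleton]
      simp only [wd]
      rw [show (r * k + d) / k = r by
          rw [Nat.add_comm, Nat.add_mul_div_right _ _ (by omega), Nat.div_eq_of_lt hd, Nat.zero_add],
        show (r * k + d) % k = d by
          rw [Nat.add_comm, Nat.add_mul_mod_self_right, Nat.mod_eq_of_lt hd], hr2]

theorem digits_wd {k : ℕ} (hk : 2 ≤ k) (u : ℕ) (hu : 1 ≤ u) : ∀ l r, r < k ^ l →
    (Nat.digits k (u * k ^ l + r)).reverse = (Nat.digits k u).reverse ++ wd k l r := by
  intro l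
  induction l with
  | zero =>
    intro r hr
    have : r = 0 := by simpa using hr
    subst this
    simp [wd]
  | succ l ih =>
    intro r hr
    have hpos : 0 < u * k ^ (l + 1) + r := by positivity
    have h1 : (u * k ^ (l + 1) + r) % k = r % k := by
      rw [pow_succ, ← mul_assoc, Nat.add_comm, Nat.add_mul_mod_self_right]
    have h2 : (u * k ^ (l + 1) + r) / k = u * k ^ l + r / k := by
      rw [pow_succ, ← mul_assoc, Nat.add_comm, Nat.add_mul_div_right _ _ (by omega), Nat.add_comm]
    rw [Nat.digits_def' (by omega) hpos, h1, h2, List.reverse_cons, ih (r / k) (by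
      rw [Nat.div_lt_iff_lt_mul (by omega), ← pow_succ]
      exact hr)]
    simp only [wd, List.append_assoc]

theorem wd_append {k : ℕ} (hk : 2 ≤ k) (T x : ℕ) : ∀ l r, r < k ^ l →
    wd k (T + l) (x * k ^ l + r) = wd k T x ++ wd k l r := by
  intro l
  induction l with
  | zero =>
    intro r hr
    have : r = 0 := by simpa using hr
    subst this
    simp [wd]
  | succ l ih =>
    intro r hr
    have h1 : (x * k ^ (l + 1) + r) % k = r % k := by
      rw [pow_succ, ← mul_assoc, Nat.add_comm, Nat.add_mul_mod_self_right]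
    have h2 : (x * k ^ (l + 1) + r) / k = x * k ^ l + r / k := by
      rw [pow_succ, ← mul_assoc, Nat.add_comm, Nat.add_mul_div_right _ _ (by omega), Nat.add_comm]
    rw [← Nat.add_assoc]
    simp only [wd]
    rw [h1, h2, ih (r / k) (by
      rw [Nat.div_lt_iff_lt_mul (by omega), ← pow_succ]
      exact hr), List.append_assoc]

/-- **the repetition property of one-stack sequences** -/
theorem stack_rep {k : ℕ} (hk : 2 ≤ k) (a : ℕ → β) (h : OneStack k a) :
    ∃ n₀ : ℕ, ∀ u, n₀ ≤ u → ∃ T x x' : ℕ, x < x' ∧ x' < k ^ T ∧ ∀ l r, r < k ^ l →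
      a ((u * k ^ T + x) * k ^ l + r) = a ((u * k ^ T + x') * k ^ l + r) := by
  classical
  obtain ⟨Q, Γ, hQ, hΓ, M, hM⟩ := h
  obtain ⟨n₀, hn₀⟩ := eventually_atTop.1 hM
  refine ⟨n₀ + 1, fun u hu => ?_⟩
  have hu1 : 1 ≤ u := by omega
  have hrun : ∀ l r, r < k ^ l → Res M M.start [] ((Nat.digits k u).reverse ++ wd k l r)
      (a (u * k ^ l + r)) := by
    intro l r hr
    have h1 : n₀ ≤ u * k ^ l + r := by
      have : 1 ≤ k ^ l := Nat.one_le_iff_ne_zero.2 (by positivity)
      nlinarith
    obtain ⟨q, s, h2, h3⟩ := hn₀ _ h1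
    rw [digits_wd hk u hu1 l r hr] at h2
    exact ⟨q, s, h2, h3⟩
  obtain ⟨q, s, h1, h2⟩ := read_word M k M.start [] (Nat.digits k u).reverse (by
    intro z hz
    obtain ⟨r, hr, hr2⟩ := wd_surj hk z hz
    have := hrun _ r hr
    rw [hr2] at this
    exact ⟨_, this⟩)
  obtain ⟨v, q', g, h3, h4, h5⟩ := stable_ext M k q s h1
  obtain ⟨w, w', σ, h6, h7, h8, h9, h10, h11⟩ := two_words M k hk ⟨(q', g), h4⟩
  obtain ⟨x, hx, hx2⟩ := wd_surj hk (v ++ w) (dg_append h3 h6)
  obtain ⟨x', hx', hx2'⟩ := wd_surj hk (v ++ w') (dg_append h3 h7)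
  have hlen : (v ++ w').length = (v ++ w).length := by
    rw [List.length_append, List.length_append, h8]
  rw [hlen] at hx' hx2'
  obtain ⟨T, hT⟩ : ∃ T, T = (v ++ w).length := ⟨_, rfl⟩
  rw [← hT] at hx hx2 hx' hx2'
  have hne : x ≠ x' := by
    intro h
    subst h
    rw [hx2] at hx2'
    exact h9 (List.append_cancel_left hx2')
  have key : ∀ l r, r < k ^ l →
      a ((u * k ^ T + x) * k ^ l + r) = a ((u * k ^ T + x') * k ^ l + r) := by
    intro l r hr
    have hz := wd_dg hk l r
    have main : ∀ (X : ℕ) (W : List ℕ), X < k ^ T → wd k T X = v ++ W → Dg k W →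
        (∀ z, Dg k z → ∀ y, Res M q' g.toList (W ++ z) y → Res M σ.1.1 σ.1.2.toList z y) →
        Res M σ.1.1 σ.1.2.toList (wd k l r) (a ((u * k ^ T + X) * k ^ l + r)) := by
      intro X W hX hW hWd hres
      have e1 : (u * k ^ T + X) * k ^ l + r = u * k ^ (T + l) + (X * k ^ l + r) := by
        rw [pow_add]; ring
      have e2 : X * k ^ l + r < k ^ (T + l) := by
        rw [pow_add]
        calc X * k ^ l + r < X * k ^ l + k ^ l := by omega
          _ = (X + 1) * k ^ l := by ring
          _ ≤ k ^ T * k ^ l := Nat.mul_le_mul_right _ hX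
      have h12 := hrun (T + l) _ e2
      rw [wd_append hk T X l r hr, hW, h2, ← e1, List.append_assoc] at h12
      exact hres _ hz _ (h5 _ (dg_append hWd hz) _ h12)
    have m1 := main x w hx hx2 h6 h10
    have m2 := main x' w' hx' hx2' h7 h11
    exact Res.unique M m1 m2
  rcases Nat.lt_or_gt_of_ne hne with h | h
  · exact ⟨T, x, x', h, hx', key⟩
  · exact ⟨T, x', x, h, hx, fun l r hr => (key l r hr).symm⟩

end MPacdPD
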