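import Mathlib

/-!
# MP_acd137_lc / PD / Defs: one-stack machines and tag machines (helper90)
-/

set_option autoImplicit false

namespace MPacdPD

open Filter

/-- A one-stack machine (deterministic pushdown automaton with output, moves without reading allowed).
`Q`: states, `Γ`: stack symbols, `β`: outputs.  `free q g` is the move without reading in the state `q` with the
top symbol `g` (`none` if the stack is empty): a new state and a word which replaces the top symbol, or `none`
if the machine has to read; `read q g d` is the move when the digit `d` is read. -/
structure StackMachine (Q Γ β : Type) where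
  free : Q → Option Γ → Option (Q × List Γ)
  read : Q → Option Γ → ℕ → Q × List Γ
  start : Q
  out : Q → Option Γ → β

/-- One step.  A configuration consists of the state, the stack (top symbol first) and the digits which have
still to be read. -/
def StackMachine.step {Q Γ β : Type} (M : StackMachine Q Γ β) (C : Q × List Γ × List ℕ) :
    Option (Q × List Γ × List ℕ) :=
  (M.free C.1 C.2.1.head?).elim
    (C.2.2.head?.map fun d =>
      ((M.read C.1 C.2.1.head? d).1, (M.read C.1 C.2.1.head? d).2 ++ C.2.1.tail, C.2.2.tail))
    fun r => some (r.1, r.2 ++ C.2.1.tail, C.2.2)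

/-- The machine generates the sequence `a` in base `k`: for all large `n`, started in the state `start` with an
empty stack and the base `k` digits of `n` (most significant digit first), it stops, and the output in the last
state with the last top symbol is `a n`. -/
def StackMachine.Generates {Q Γ β : Type} (M : StackMachine Q Γ β) (k : ℕ) (a : ℕ → β) : Prop :=
  ∀ᶠ n in atTop, ∃ q s, (q, s, []) ∈ StateTransition.eval M.step
    (M.start, [], (Nat.digits k n).reverse) ∧ M.out q s.head? = a n

/-- `a` is generated by a one-stack machine which reads the index in base `k`. -/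
def OneStack {β : Type} (k : ℕ) (a : ℕ → β) : Prop :=
  ∃ (Q Γ : Type) (_ : Finite Q) (_ : Finite Γ) (M : StackMachine Q Γ β), M.Generates k a

/-- the word `σ (u 0) σ (u 1) ... σ (u (n - 1))` -/
def image {A : Type} (σ : A → List A) (u : ℕ → A) (n : ℕ) : List A :=
  ((List.range n).map u).flatMap σ

/-- `a` is generated by a tag machine with dilation factor larger than one: `a n = φ (u n)`, where `u` is a
sequence over a finite alphabet which is fixed by the morphism `σ` (each `σ (u 0) ... σ (u (n - 1))` is a prefix
of `u`) and the lengths of these words are at least `lam * n` for large `n`, for some `lam > 1`. -/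
def TagMachine {β : Type} (a : ℕ → β) : Prop :=
  ∃ (A : Type) (_ : Finite A) (σ : A → List A) (u : ℕ → A) (φ : A → β) (lam : ℝ), 1 < lam ∧
    (∀ n, image σ u n = (List.range (image σ u n).length).map u) ∧
    (∀ᶠ n : ℕ in atTop, lam * n ≤ (image σ u n).length) ∧ ∀ n, a n = φ (u n)

/-- At all scales two equal long blocks at places of almost the same size. -/
def Recurs {β : Type} (a : ℕ → β) : Prop :=
  ∀ ε > (0 : ℝ), ∃ δ > (0 : ℝ), ∀ᶠ M : ℕ in atTop, ∃ I J : ℕ, M ≤ I ∧ I < J ∧
    (J : ℝ) ≤ (1 + ε) * M ∧ ∀ t : ℕ, (t : ℝ) ≤ δ * M → a (I + t) = a (J + t)

end MPacdPD
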