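import Pool.Agent.Lib.MP_acd137_lc.Final
import Pool.Agent.Lib.MP_acd137_lc.PD.Defs

/-!
# MP_acd137_lc / PD / NotRec: the digits of a simple number in an independent base are not recurrent (helper90,
after F2 of the same library)
-/

set_option autoImplicit false

namespace MPacdPD

open Filter Topology Pool.Agent.Lib.MP_acd137_lc

private theorem pow_clog {c m : ℕ} (hc : 2 ≤ c) (hm : 2 ≤ m) :
    m ≤ c ^ Nat.clog c m ∧ c ^ Nat.clog c m ≤ c * m := by
  refine ⟨Nat.le_pow_clog (by omega) m, ?_⟩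
  have h1 := Nat.pow_pred_clog_lt_self (b := c) (by omega) (x := m) (by omega)
  have h2 : 0 < Nat.clog c m := Nat.clog_pos (by omega) (by omega)
  have h3 : Nat.clog c m = (Nat.clog c m).pred + 1 := by
    rw [Nat.pred_eq_sub_one]
    omega
  calc c ^ Nat.clog c m = c ^ ((Nat.clog c m).pred + 1) := by rw [← h3]
    _ = c * c ^ (Nat.clog c m).pred := by rw [pow_succ]; ring
    _ ≤ c * m := Nat.mul_le_mul_left _ h1.le

theorem not_recurs (hdig : S_digits) (htf : S_tfreq) (hkp : S_kp) (b c : ℕ) (x : ℝ) (hb : 2 ≤ b)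
    (hc : 2 ≤ c) (hind : Indep b c) (hirr : Irrational x) (hs : Simple b x) (h : ℕ) :
    ¬ Recurs (fun m => digit c x (m + h)) := by
  intro hR
  obtain ⟨ρ, hρ, hT⟩ := htf b x hb hirr hs
  obtain ⟨ε₀, hε₀, hK⟩ := hkp b c x hb hc hind hs ρ hρ
  obtain ⟨δ₁, hδ₁, hR⟩ := hR (ε₀ / 2) (by positivity)
  obtain ⟨η, hη, hE⟩ := hK (δ₁ / 2) (by positivity)
  have hb1 : (1 : ℝ) < b := by exact_mod_cast (by omega : 1 < b)
  have hc1 : (1 : ℝ) < c := by exact_mod_cast (by omega : 1 < c)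
  have hlb : 0 < Real.log b := Real.log_pos hb1
  have hlc : 0 < Real.log c := Real.log_pos hc1
  obtain ⟨M₀, hM₀⟩ := eventually_atTop.1 hR
  -- the conditions on N
  have h1 : ∀ᶠ N : ℕ in atTop, Real.log c / (δ₁ / 2 * Real.log b) ≤ (N : ℝ) :=
    tendsto_natCast_atTop_atTop.eventually_ge_atTop _
  have h2 : ∀ᶠ N : ℕ in atTop, (M₀ + h / (ε₀ / 2)) * Real.log c / Real.log b ≤ (N : ℝ) :=
    tendsto_natCast_atTop_atTop.eventually_ge_atTop _
  obtain ⟨N, ⟨q, Y, hTr⟩, hKN, hN1, hN2, hN3⟩ :=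
    ((hT η hη).and_eventually (hE.and (h1.and (h2.and (eventually_ge_atTop 1))))).exists
  have hbN : 2 ≤ b ^ N := by
    calc 2 ≤ b := hb
      _ = b ^ 1 := (pow_one b).symm
      _ ≤ b ^ N := Nat.pow_le_pow_right (by omega) hN3
  obtain ⟨hM1, hM2⟩ := pow_clog hc hbN
  generalize Nat.clog c (b ^ N) = M at hM1 hM2
  have hM1r : (b : ℝ) ^ N ≤ (c : ℝ) ^ M := by exact_mod_cast hM1
  have hM2r : (c : ℝ) ^ M ≤ c * (b : ℝ) ^ N := by exact_mod_cast hM2
  have hMl : (N : ℝ) * Real.log b ≤ M * Real.log c := by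
    have := Real.log_le_log (by positivity) hM1r
    rwa [Real.log_pow, Real.log_pow] at this
  rw [div_le_iff₀ (by positivity)] at hN1
  rw [div_le_iff₀ hlb] at hN2
  have hMbig : (M₀ : ℝ) + h / (ε₀ / 2) ≤ M := by
    have : ((M₀ : ℝ) + h / (ε₀ / 2)) * Real.log c ≤ M * Real.log c := hN2.trans hMl
    exact le_of_mul_le_mul_right this hlc
  have hdivnn : (0 : ℝ) ≤ h / (ε₀ / 2) := by positivity
  have hM₀M : M₀ ≤ M := by
    have : (M₀ : ℝ) ≤ M := by linarith
    exact_mod_cast this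
  have hhM : (h : ℝ) ≤ ε₀ / 2 * M := by
    have h3 : (h : ℝ) / (ε₀ / 2) ≤ M := by
      have : (0 : ℝ) ≤ M₀ := Nat.cast_nonneg _
      linarith
    rw [div_le_iff₀ (by positivity)] at h3
    linarith
  obtain ⟨I, J, hI, hIJ, hJ, hw⟩ := hM₀ M hM₀M
  -- the length of the words
  have hx0 : 0 ≤ δ₁ * (M : ℝ) := by positivity
  have hn1 := Nat.floor_le hx0
  have hn2 := Nat.lt_floor_add_one (δ₁ * (M : ℝ))
  generalize ⌊δ₁ * (M : ℝ)⌋₊ = n at hn1 hn2
  have hw' : ∀ t, 1 ≤ t → t ≤ n → digit c x (I + h + t) = digit c x (J + h + t) := by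
    intro t _ ht
    have h3 : (t : ℝ) ≤ δ₁ * M := le_trans (by exact_mod_cast ht) hn1
    have h4 := hw t h3
    simp only at h4
    rw [show I + h + t = I + t + h by ring, show J + h + t = J + t + h by ring]
    exact h4
  have hd := (hdig c x hc).2 (I + h) (J + h) n hw'
  refine hKN q Y hTr M hM1r hM2r 1 1 (pre c x (J + h) - pre c x (I + h)) (I + h) (J + h) (by omega)
    (by omega) ?_ ?_ ?_ ?_ ?_
  · push_cast
    linarith
  · rw [Int.cast_one, abs_one]
    exact Real.one_le_rpow hb1.le (by positivity)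
  · rw [Int.cast_one, abs_one]
    exact Real.one_le_rpow hb1.le (by positivity)
  · rw [one_mul, one_mul]
    intro h'
    have h'' : c ^ (J + h) = c ^ (I + h) := by exact_mod_cast h'
    have := Nat.pow_right_injective hc h''
    omega
  · have e0 : ((((1 : ℤ) : ℝ) * (c : ℝ) ^ (J + h) - ((1 : ℤ) : ℝ) * (c : ℝ) ^ (I + h)) * x -
        ((pre c x (J + h) - pre c x (I + h) : ℤ) : ℝ)) = ((c : ℝ) ^ (J + h) - (c : ℝ) ^ (I + h)) * x -
        ((pre c x (J + h) - pre c x (I + h) : ℤ) : ℝ) := by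
      rw [Int.cast_one, one_mul, one_mul]
    rw [e0]
    refine hd.trans ?_
    rw [Real.rpow_neg (by positivity)]
    apply inv_anti₀ (by positivity)
    rw [← Real.rpow_natCast (c : ℝ) n, Real.rpow_def_of_pos (by positivity),
      Real.rpow_def_of_pos (by positivity)]
    apply Real.exp_le_exp.2
    -- `δ N log b ≤ n log c`
    have f2 : δ₁ * (N * Real.log b) ≤ δ₁ * (M * Real.log c) :=
      mul_le_mul_of_nonneg_left hMl hδ₁.le
    have f3 : δ₁ * M * Real.log c < ((n : ℝ) + 1) * Real.log c := mul_lt_mul_of_pos_right hn2 hlc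
    have f4 : Real.log c ≤ N * (δ₁ / 2 * Real.log b) := hN1
    nlinarith [f2, f3, f4]

end MPacdPD
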