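import Pool.Agent.Lib.MP_acd137_lc.PD.Comb

/-!
# MP_acd137_lc / PD / Rec: sequences of one-stack machines are recurrent at all scales (helper90)
-/

set_option autoImplicit false

namespace MPacdPD

open Filter

theorem stack_recurs {β : Type} {k : ℕ} (hk : 2 ≤ k) (a : ℕ → β) (h : OneStack k a) :
    Recurs a := by
  classical
  obtain ⟨n₀, hn₀⟩ := stack_rep hk a h
  intro ε hε
  have hkR : (2 : ℝ) ≤ k := by exact_mod_cast hk
  -- the number of leading digits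
  obtain ⟨t, ht1, ht2⟩ : ∃ t : ℕ, n₀ ≤ k ^ t ∧ 2 / ε ≤ (k : ℝ) ^ t := by
    obtain ⟨t, ht⟩ := pow_unbounded_of_one_lt (max (n₀ : ℝ) (2 / ε)) (by linarith : (1 : ℝ) < k)
    refine ⟨t, ?_, (le_max_right _ _).trans ht.le⟩
    have : (n₀ : ℝ) ≤ (k : ℝ) ^ t := (le_max_left _ _).trans ht.le
    exact_mod_cast this
  choose! T x x' hxx hx' hrep using hn₀
  obtain ⟨L, hL⟩ : ∃ L : ℕ, ∀ u, k ^ t ≤ u → u ≤ k ^ (t + 1) → T u ≤ L := by
    refine ⟨(Finset.Icc (k ^ t) (k ^ (t + 1))).sup T, fun u h1 h2 => ?_⟩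
    exact Finset.le_sup (f := T) (Finset.mem_Icc.2 ⟨h1, h2⟩)
  refine ⟨1 / (k : ℝ) ^ (t + 1 + L), by positivity, ?_⟩
  filter_upwards [eventually_ge_atTop (k ^ (t + L))] with M hM
  have hM0 : M ≠ 0 := by
    have : 0 < k ^ (t + L) := by positivity
    omega
  -- the scale
  obtain ⟨m, hm1, hm2⟩ : ∃ m : ℕ, k ^ m ≤ M ∧ M < k ^ (m + 1) :=
    ⟨Nat.log k M, Nat.pow_log_le_self k hM0, Nat.lt_pow_succ_log_self (by omega) M⟩
  have hmt : t + L ≤ m := by
    by_contra hcon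
    rw [not_le] at hcon
    have : k ^ (m + 1) ≤ k ^ (t + L) := Nat.pow_le_pow_right (by omega) hcon
    omega
  obtain ⟨l', hl'⟩ : ∃ l', m = t + l' := ⟨m - t, by omega⟩
  subst hl'
  have hpl : 0 < k ^ l' := by positivity
  obtain ⟨u, hu⟩ : ∃ u, u = M / k ^ l' + 1 := ⟨_, rfl⟩
  have hu1 : k ^ t ≤ u := by
    have : k ^ t ≤ M / k ^ l' := by
      rw [Nat.le_div_iff_mul_le hpl, ← pow_add]
      exact hm1
    omega
  have hu2 : u ≤ k ^ (t + 1) := by
    have : M / k ^ l' < k ^ (t + 1) := by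
      rw [Nat.div_lt_iff_lt_mul hpl, ← pow_add]
      calc M < k ^ (t + l' + 1) := hm2
        _ = k ^ (t + 1 + l') := by congr 1; ring
    omega
  have hu3 : n₀ ≤ u := ht1.trans hu1
  have hTL := hL u hu1 hu2
  obtain ⟨l, hl⟩ : ∃ l, l' = T u + l := ⟨l' - T u, by omega⟩
  have hMu : M < u * k ^ l' := by
    rw [hu]
    have := Nat.lt_div_mul_add hpl (a := M)
    rw [Nat.add_mul, Nat.one_mul]
    exact this
  have huM : u * k ^ l' ≤ M + k ^ l' := by
    rw [hu, Nat.add_mul, Nat.one_mul]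
    have := Nat.div_mul_le_self M (k ^ l')
    omega
  have hlow : ∀ X, u * k ^ l' ≤ (u * k ^ T u + X) * k ^ l := by
    intro X
    rw [hl, pow_add, ← mul_assoc]
    exact Nat.mul_le_mul_right _ (Nat.le_add_right _ _)
  have hxu' := hx' u hu3
  have hxu := hxx u hu3
  have hhigh : (u * k ^ T u + x' u) * k ^ l ≤ M + 2 * k ^ l' := by
    calc (u * k ^ T u + x' u) * k ^ l ≤ (u * k ^ T u + k ^ T u) * k ^ l :=
          Nat.mul_le_mul_right _ (by omega)
      _ = u * k ^ l' + k ^ l' := by rw [hl, pow_add]; ring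
      _ ≤ M + 2 * k ^ l' := by omega
  refine ⟨(u * k ^ T u + x u) * k ^ l, (u * k ^ T u + x' u) * k ^ l, ?_, ?_, ?_, ?_⟩
  · exact hMu.le.trans (hlow _)
  · exact Nat.mul_lt_mul_of_pos_right (by omega) (by positivity)
  · have h1 : (((u * k ^ T u + x' u) * k ^ l : ℕ) : ℝ) ≤ M + 2 * (k : ℝ) ^ l' := by
      exact_mod_cast hhigh
    have h2 : (k : ℝ) ^ t * (k : ℝ) ^ l' ≤ M := by
      rw [← pow_add]
      exact_mod_cast hm1
    have h3 : 2 * (k : ℝ) ^ l' ≤ ε * M := by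
      have h4 : 2 ≤ ε * (k : ℝ) ^ t := by
        rw [div_le_iff₀ hε] at ht2
        linarith
      have h5 : (0 : ℝ) < (k : ℝ) ^ l' := by positivity
      calc 2 * (k : ℝ) ^ l' ≤ (ε * (k : ℝ) ^ t) * (k : ℝ) ^ l' := by gcongr
        _ = ε * ((k : ℝ) ^ t * (k : ℝ) ^ l') := by ring
        _ ≤ ε * M := by gcongr
    linarith
  · intro r hr
    apply hrep u hu3 l r
    have h1 : (M : ℝ) < (k : ℝ) ^ (t + l' + 1) := by exact_mod_cast hm2
    have h2 : (r : ℝ) < (k : ℝ) ^ l := by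
      have h3 : (0 : ℝ) < (k : ℝ) ^ (t + 1 + L) := by positivity
      calc (r : ℝ) ≤ 1 / (k : ℝ) ^ (t + 1 + L) * M := hr
        _ < 1 / (k : ℝ) ^ (t + 1 + L) * (k : ℝ) ^ (t + l' + 1) := by gcongr
        _ ≤ 1 / (k : ℝ) ^ (t + 1 + L) * ((k : ℝ) ^ (t + 1 + L) * (k : ℝ) ^ l) := by
            gcongr
            rw [← pow_add]
            apply pow_le_pow_right₀ (by linarith)
            omega
        _ = (k : ℝ) ^ l := by field_simp
    exact_mod_cast h2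

end MPacdPD
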