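import Pool.Agent.Lib.MP_acd137_lc.PD.Defs

/-!
# MP_acd137_lc / PD / Stable: stable configurations of one-stack machines (helper90)
-/

set_option autoImplicit false

namespace MPacdPD

open Filter StateTransition Relation

variable {Q Γ β : Type} (M : StackMachine Q Γ β)

theorem step_free {q q' : Q} {s t : List Γ} {w : List ℕ} (h : M.free q s.head? = some (q', t)) :
    M.step (q, s, w) = some (q', t ++ s.tail, w) := by
  simp [StackMachine.step, h]

theorem step_read {q : Q} {s : List Γ} {d : ℕ} {w : List ℕ} (h : M.free q s.head? = none) :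
    M.step (q, s, d :: w) =
      some ((M.read q s.head? d).1, (M.read q s.head? d).2 ++ s.tail, w) := by
  simp [StackMachine.step, h]

theorem step_none {q : Q} {s : List Γ} {w : List ℕ} (h : M.step (q, s, w) = none) :
    M.free q s.head? = none ∧ w = [] := by
  rcases hf : M.free q s.head? with _ | ⟨q', t⟩
  · rcases w with _ | ⟨d, w⟩
    · exact ⟨rfl, rfl⟩
    · rw [step_read M hf] at h
      cases h
  · rw [step_free M hf] at h
    cases h

theorem step_halt {q : Q} {s : List Γ} (h : M.free q s.head? = none) :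
    M.step (q, s, []) = none := by
  simp [StackMachine.step, h]

theorem step_some {q : Q} {s : List Γ} {w : List ℕ} {C : Q × List Γ × List ℕ}
    (h : M.step (q, s, w) = some C) :
    (∃ q' t, M.free q s.head? = some (q', t) ∧ C = (q', t ++ s.tail, w)) ∨
    (∃ d w', M.free q s.head? = none ∧ w = d :: w' ∧
      C = ((M.read q s.head? d).1, (M.read q s.head? d).2 ++ s.tail, w')) := by
  rcases hf : M.free q s.head? with _ | ⟨q', t⟩
  · rcases w with _ | ⟨d, w⟩
    · rw [step_halt M hf] at h
      cases h
    · rw [step_read M hf] at h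
      exact Or.inr ⟨d, w, rfl, rfl, (Option.some.inj h).symm⟩
  · rw [step_free M hf] at h
    exact Or.inl ⟨q', t, rfl, (Option.some.inj h).symm⟩

/-- the run does not depend on the digits which are not yet read -/
theorem indep {A B : Q × List Γ × List ℕ} (h : Reaches M.step A B) :
    ∃ v, A.2.2 = v ++ B.2.2 ∧ ∀ z, Reaches M.step (A.1, A.2.1, v ++ z) (B.1, B.2.1, z) := by
  induction h with
  | refl => exact ⟨[], rfl, fun z => ReflTransGen.refl⟩
  | tail hprev hstep ih =>
    rename_i B C
    obtain ⟨v, hv, hz⟩ := ih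
    obtain ⟨q, s, w⟩ := B
    have hstep' : M.step (q, s, w) = some C := hstep
    rcases step_some M hstep' with ⟨q', t, h1, rfl⟩ | ⟨d, w', h1, rfl, rfl⟩
    · exact ⟨v, hv, fun z => (hz z).tail (step_free M h1)⟩
    · refine ⟨v ++ [d], by simpa using hv, fun z => ?_⟩
      rw [List.append_assoc, List.singleton_append]
      exact (hz (d :: z)).tail (step_read M h1)

/-- the result of the machine from a configuration -/
def Res (q : Q) (s : List Γ) (w : List ℕ) (y : β) : Prop :=
  ∃ q' s', (q', s', []) ∈ eval M.step (q, s, w) ∧ M.out q' s'.head? = y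

theorem Res.unique {q : Q} {s : List Γ} {w : List ℕ} {y y' : β} (h : Res M q s w y)
    (h' : Res M q s w y') : y = y' := by
  obtain ⟨q1, s1, h1, rfl⟩ := h
  obtain ⟨q2, s2, h2, rfl⟩ := h'
  have := Part.mem_unique h1 h2
  simp only [Prod.mk.injEq] at this
  rw [this.1, this.2.1]

theorem Res.of_reaches {q q' : Q} {s s' : List Γ} {w w' : List ℕ} {y : β}
    (h : Reaches M.step (q, s, w) (q', s', w')) : Res M q s w y ↔ Res M q' s' w' y := by
  unfold Res
  rw [reaches_eval h]

/-- words of digits -/
def Dg (k : ℕ) (w : List ℕ) : Prop := ∀ d ∈ w, d < k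

/-- a configuration from which the machine stops on every word -/
def Legal (k : ℕ) (q : Q) (s : List Γ) : Prop := ∀ w, Dg k w → ∃ y, Res M q s w y

/-- every legal configuration has a stable extension -/
theorem stable_ext (k : ℕ) (q : Q) (s : List Γ) (hL : Legal M k q s) :
    ∃ (v : List ℕ) (q' : Q) (g : Option Γ), Dg k v ∧ Legal M k q' g.toList ∧
      ∀ z, Dg k z → ∀ y, Res M q s (v ++ z) y → Res M q' g.toList z y := by
  classical
  -- a reachable configuration of least height
  obtain ⟨h, hh1, hh2⟩ : ∃ h : ℕ, (∃ C : Q × List Γ × List ℕ, ∃ w, Dg k w ∧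
      Reaches M.step (q, s, w) C ∧ C.2.1.length = h) ∧
      ∀ (C : Q × List Γ × List ℕ) (w : List ℕ), Dg k w → Reaches M.step (q, s, w) C →
        h ≤ C.2.1.length := by
    have hex : ∃ h : ℕ, ∃ C : Q × List Γ × List ℕ, ∃ w, Dg k w ∧
      Reaches M.step (q, s, w) C ∧ C.2.1.length = h :=
      ⟨s.length, (q, s, []), [], fun d hd => (List.not_mem_nil hd).elim, ReflTransGen.refl, rfl⟩
    refine ⟨Nat.find hex, Nat.find_spec hex, fun C w hw hC => ?_⟩
    exact Nat.find_min' hex ⟨C, w, hw, hC, rfl⟩
  obtain ⟨⟨q', s', w'⟩, w, hw, hC, hlen⟩ := hh1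
  obtain ⟨v, hv, hz⟩ := indep M hC
  simp only at hv hz hlen
  have hvD : Dg k v := fun d hd => hw d (by rw [hv]; exact List.mem_append_left _ hd)
  have happ : ∀ z, Dg k z → Dg k (v ++ z) := by
    intro z hz d hd
    rcases List.mem_append.1 hd with h | h
    · exact hvD d h
    · exact hz d h
  have hmin : ∀ z, Dg k z → ∀ C, Reaches M.step (q', s', z) C → s'.length ≤ C.2.1.length := by
    intro z hzD C hC'
    rw [hlen]
    exact hh2 C (v ++ z) (happ z hzD) ((hz z).trans hC')
  rcases hs : s' with _ | ⟨γ, s0⟩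
  · -- empty stack
    subst hs
    have key : ∀ z, Dg k z → ∀ y, Res M q s (v ++ z) y → Res M q' (none : Option Γ).toList z y :=
      fun z _ y h => (Res.of_reaches M (hz z)).1 h
    refine ⟨v, q', none, hvD, fun z hzD => ?_, key⟩
    obtain ⟨y, hy⟩ := hL (v ++ z) (happ z hzD)
    exact ⟨y, key z hzD y hy⟩
  · subst hs
    have hsim : ∀ z, Dg k z → ∀ C, Reaches M.step (q', γ :: s0, z) C →
        ∃ t, t ≠ [] ∧ C.2.1 = t ++ s0 ∧ Reaches M.step (q', [γ], z) (C.1, t, C.2.2) := by
      intro z hzD C hC'
      induction hC' with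
      | refl => exact ⟨[γ], by simp, rfl, ReflTransGen.refl⟩
      | tail hprev hstep ih =>
        rename_i B C
        obtain ⟨t, ht1, ht2, ht3⟩ := ih
        obtain ⟨q1, s1, w1⟩ := B
        simp only at ht2 ht3
        subst ht2
        have hstep' : M.step (q1, t ++ s0, w1) = some C := hstep
        have hhead : (t ++ s0).head? = t.head? := by
          rcases t with _ | ⟨x, t⟩
          · exact absurd rfl ht1
          · rfl
        have htail : (t ++ s0).tail = t.tail ++ s0 := by
          rcases t with _ | ⟨x, t⟩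
          · exact absurd rfl ht1
          · rfl
        have hlenC : (γ :: s0).length ≤ C.2.1.length := hmin z hzD C (hprev.tail hstep)
        rcases step_some M hstep' with ⟨q2, t2, h1, rfl⟩ | ⟨d, w2, h1, rfl, rfl⟩
        · refine ⟨t2 ++ t.tail, ?_, ?_, ?_⟩
          · intro h0
            simp only [htail, ← List.append_assoc, h0] at hlenC
            simp at hlenC
          · simp only [htail, List.append_assoc]
          · rw [hhead] at h1
            exact ht3.tail (step_free M h1)
        · rw [hhead] at h1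
          refine ⟨(M.read q1 t.head? d).2 ++ t.tail, ?_, ?_, ?_⟩
          · intro h0
            simp only [hhead, htail, ← List.append_assoc, h0] at hlenC
            simp at hlenC
          · simp only [hhead, htail, List.append_assoc]
          · have := ht3.tail (step_read M (d := d) (w := w2) h1)
            simp only [hhead]
            exact this
    have key : ∀ z, Dg k z → ∀ y, Res M q s (v ++ z) y → Res M q' (some γ).toList z y := by
      intro z hzD y hy
      rw [Res.of_reaches M (hz z)] at hy
      obtain ⟨q1, s1, h1, h2⟩ := hy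
      rw [mem_eval] at h1
      obtain ⟨t, ht1, ht2, ht3⟩ := hsim z hzD _ h1.1
      simp only at ht2 ht3
      subst ht2
      have hhead : (t ++ s0).head? = t.head? := by
        rcases t with _ | ⟨x, t⟩
        · exact absurd rfl ht1
        · rfl
      refine ⟨q1, t, mem_eval.2 ⟨ht3, ?_⟩, by rw [← hhead]; exact h2⟩
      have h3 := step_none M h1.2
      rw [hhead] at h3
      exact step_halt M h3.1
    refine ⟨v, q', some γ, hvD, fun z hzD => ?_, key⟩
    obtain ⟨y, hy⟩ := hL (v ++ z) (happ z hzD)
    exact ⟨y, key z hzD y hy⟩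

/-- reading a word from a legal configuration -/
theorem read_word (k : ℕ) (q : Q) (s : List Γ) (w : List ℕ)
    (hL : ∀ z, Dg k z → ∃ y, Res M q s (w ++ z) y) :
    ∃ (q' : Q) (s' : List Γ), Legal M k q' s' ∧ ∀ z y, Res M q s (w ++ z) y ↔ Res M q' s' z y := by
  obtain ⟨y, q', s', h1, _⟩ := hL [] (fun d hd => (List.not_mem_nil hd).elim)
  rw [mem_eval, List.append_nil] at h1
  obtain ⟨v, hv, hz⟩ := indep M h1.1
  simp only [List.append_nil] at hv hz
  subst hv
  have h2 : ∀ z y, Res M q s (w ++ z) y ↔ Res M q' s' z y := fun z y => Res.of_reaches M (hz z)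
  refine ⟨q', s', fun z hzD => ?_, h2⟩
  obtain ⟨y, hy⟩ := hL z hzD
  exact ⟨y, (h2 z y).1 hy⟩

/-- the types -/
def LType (k : ℕ) : Type := {τ : Q × Option Γ // Legal M k τ.1 τ.2.toList}

theorem next (k : ℕ) (τ : LType M k) (d : ℕ) (hd : d < k) :
    ∃ (v : List ℕ) (τ' : LType M k), Dg k v ∧ ∀ z, Dg k z → ∀ y,
      Res M τ.1.1 τ.1.2.toList (d :: (v ++ z)) y → Res M τ'.1.1 τ'.1.2.toList z y := by
  obtain ⟨⟨q, g⟩, hτ⟩ := τ
  have h1 : Dg k [d] := by
    intro x hx
    rw [List.mem_singleton] at hx
    rw [hx]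
    exact hd
  obtain ⟨q', s', h2, h3⟩ := read_word M k q g.toList [d] (fun z hz => hτ ([d] ++ z) (by
    intro x hx
    rcases List.mem_append.1 hx with h | h
    · exact h1 x h
    · exact hz x h))
  obtain ⟨v, q'', g'', h4, h5, h6⟩ := stable_ext M k q' s' h2
  refine ⟨v, ⟨(q'', g''), h5⟩, h4, fun z hz y hy => ?_⟩
  exact h6 z hz y ((h3 (v ++ z) y).1 hy)

end MPacdPD
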