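import Pool.Agent.Lib.MP_acd137_lc.PD.Defs

/-!
# MP_acd137_lc / PD / Tag: tag machines with dilation factor larger than one are recurrent (helper90)
-/

set_option autoImplicit false

namespace MPacdPD

open Filter

variable {A : Type} (σ : A → List A) (u : ℕ → A)

/-- the length of the image of the prefix of length `n` -/
def gl (n : ℕ) : ℕ := (image σ u n).length

theorem image_succ (n : ℕ) : image σ u (n + 1) = image σ u n ++ σ (u n) := by
  unfold image
  rw [List.range_succ, List.map_append, List.flatMap_append]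
  simp

theorem gl_succ (n : ℕ) : gl σ u (n + 1) = gl σ u n + (σ (u n)).length := by
  unfold gl
  rw [image_succ, List.length_append]

theorem gl_mono : Monotone (gl σ u) := by
  apply monotone_nat_of_le_succ
  intro n
  rw [gl_succ]
  exact Nat.le_add_right _ _

theorem gl_content (h : ∀ n, image σ u n = (List.range (image σ u n).length).map u) (n t : ℕ)
    (ht : t < (σ (u n)).length) : u (gl σ u n + t) = (σ (u n))[t] := by
  have h1 := h (n + 1)
  have h2 : gl σ u n + t < (image σ u (n + 1)).length := by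
    have := gl_succ σ u n
    unfold gl at this ⊢
    omega
  have h3 : (image σ u (n + 1))[gl σ u n + t] = u (gl σ u n + t) := by
    conv_lhs => rw [List.getElem_of_eq h1 h2]
    simp
  rw [← h3]
  have h4 : (image σ u (n + 1))[gl σ u n + t] = (image σ u n ++ σ (u n))[gl σ u n + t]'(by
      rw [← image_succ]; exact h2) := List.getElem_of_eq (image_succ σ u n) h2
  rw [h4, List.getElem_append_right (by unfold gl; omega)]
  congr 1
  unfold gl
  omega

/-- equal segments have equal images -/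
theorem seg1 (h : ∀ n, image σ u n = (List.range (image σ u n).length).map u) (i j : ℕ) :
    ∀ s, (∀ r < s, u (i + r) = u (j + r)) →
      (∃ l, gl σ u (i + s) = gl σ u i + l ∧ gl σ u (j + s) = gl σ u j + l ∧
        ∀ t < l, u (gl σ u i + t) = u (gl σ u j + t)) := by
  intro s
  induction s with
  | zero => intro _; exact ⟨0, rfl, rfl, fun t ht => absurd ht (Nat.not_lt_zero t)⟩
  | succ s ih =>
    intro hs
    obtain ⟨l, h1, h2, h3⟩ := ih (fun r hr => hs r (by omega))
    have h4 := hs s (by omega)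
    refine ⟨l + (σ (u (i + s))).length, ?_, ?_, ?_⟩
    · rw [← Nat.add_assoc, gl_succ, h1]
      omega
    · rw [← Nat.add_assoc, gl_succ, h2, h4]
      omega
    · intro t ht
      rcases Nat.lt_or_ge t l with h5 | h5
      · exact h3 t h5
      · obtain ⟨t', rfl⟩ : ∃ t', t = l + t' := ⟨t - l, by omega⟩
        have h6 : t' < (σ (u (i + s))).length := by omega
        have h7 : t' < (σ (u (j + s))).length := by rw [← h4]; exact h6
        have h8 := gl_content σ u h (i + s) t' h6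
        have h9 := gl_content σ u h (j + s) t' h7
        rw [h1] at h8
        rw [h2] at h9
        rw [← Nat.add_assoc, ← Nat.add_assoc, h8, h9]
        simp only [h4]

theorem segm (h : ∀ n, image σ u n = (List.range (image σ u n).length).map u) (m : ℕ) :
    ∀ i j s, (∀ r < s, u (i + r) = u (j + r)) →
      (∃ l, (gl σ u)^[m] (i + s) = (gl σ u)^[m] i + l ∧
        (gl σ u)^[m] (j + s) = (gl σ u)^[m] j + l ∧
        ∀ t < l, u ((gl σ u)^[m] i + t) = u ((gl σ u)^[m] j + t)) := by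
  induction m with
  | zero => intro i j s hs; exact ⟨s, rfl, rfl, hs⟩
  | succ m ih =>
    intro i j s hs
    obtain ⟨l, h1, h2, h3⟩ := seg1 σ u h i j s hs
    obtain ⟨l', h4, h5, h6⟩ := ih (gl σ u i) (gl σ u j) l h3
    refine ⟨l', ?_, ?_, ?_⟩
    · rw [Function.iterate_succ_apply, Function.iterate_succ_apply, h1, h4]
    · rw [Function.iterate_succ_apply, Function.iterate_succ_apply, h2, h5]
    · intro t ht
      rw [Function.iterate_succ_apply, Function.iterate_succ_apply]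
      exact h6 t ht

/-- blocks of equal letters -/
theorem blockm (h : ∀ n, image σ u n = (List.range (image σ u n).length).map u) (m i j : ℕ)
    (hij : u i = u j) :
    ∃ l, (gl σ u)^[m] (i + 1) = (gl σ u)^[m] i + l ∧
      (gl σ u)^[m] (j + 1) = (gl σ u)^[m] j + l ∧
      ∀ t < l, u ((gl σ u)^[m] i + t) = u ((gl σ u)^[m] j + t) := by
  apply segm σ u h m i j 1
  intro r hr
  have : r = 0 := by omega
  subst this
  exact hij

theorem tag_recurs {β : Type} (a : ℕ → β) (ha : TagMachine a) : Recurs a := by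
  classical
  obtain ⟨A, hA, σ, u, φ, lam, hlam, hfix, hdil, hφ⟩ := ha
  have := Fintype.ofFinite A
  intro ε hε
  obtain ⟨g, hg⟩ : ∃ g, g = gl σ u := ⟨_, rfl⟩
  have hmono : Monotone g := by rw [hg]; exact gl_mono σ u
  have hmonom : ∀ m, Monotone (g^[m]) := fun m => hmono.iterate m
  have hlam0 : (0 : ℝ) < lam := by linarith
  -- growth
  obtain ⟨n₁, hn₁⟩ := eventually_atTop.1 hdil
  have hgrow : ∀ n, n₁ ≤ n → lam * n ≤ g n := by
    intro n hn
    rw [hg]
    exact hn₁ n hn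
  -- early letters
  obtain ⟨B, hB⟩ : ∃ B : ℕ, ∀ i, ∃ i₀, i₀ < B ∧ u i₀ = u i := by
    have h1 : ∀ x : A, ∃ i₀ : ℕ, (∃ i, u i = x) → u i₀ = x := by
      intro x
      by_cases hx : ∃ i, u i = x
      · obtain ⟨i, hi⟩ := hx
        exact ⟨i, fun _ => hi⟩
      · exact ⟨0, fun h => absurd h hx⟩
    choose f hf using h1
    refine ⟨(∑ x : A, f x) + 1, fun i => ⟨f (u i), ?_, hf (u i) ⟨i, rfl⟩⟩⟩
    have := Finset.single_le_sum (f := f) (fun _ _ => Nat.zero_le _) (Finset.mem_univ (u i))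
    omega
  obtain ⟨B', hB'⟩ : ∃ B', B' = max (max B n₁) 1 := ⟨_, rfl⟩
  have hB1 : B ≤ B' := by rw [hB']; exact (le_max_left _ _).trans (le_max_left _ _)
  have hB2 : n₁ ≤ B' := by rw [hB']; exact (le_max_right _ _).trans (le_max_left _ _)
  have hB3 : 1 ≤ B' := by rw [hB']; exact le_max_right _ _
  -- iterated growth
  have hit : ∀ m n, n₁ ≤ n → n ≤ g^[m] n := by
    intro m
    induction m with
    | zero => intro n _; exact le_rfl
    | succ m ih =>
      intro n hn
      rw [Function.iterate_succ_apply']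
      have h1 := ih n hn
      have h2 := hgrow (g^[m] n) (hn.trans h1)
      have h3 : ((g^[m] n : ℕ) : ℝ) ≤ lam * (g^[m] n : ℕ) := by
        have : (0 : ℝ) ≤ (g^[m] n : ℕ) := Nat.cast_nonneg _
        nlinarith
      have h4 : ((g^[m] n : ℕ) : ℝ) ≤ (g (g^[m] n) : ℕ) := h3.trans h2
      exact h1.trans (by exact_mod_cast h4)
  have hpow : ∀ e m n, n₁ ≤ n → lam ^ e * (g^[m] n : ℕ) ≤ (g^[m + e] n : ℕ) := by
    intro e
    induction e with
    | zero => intro m n _; simp
    | succ e ih =>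
      intro m n hn
      have h1 := ih m n hn
      have h2 := hgrow (g^[m + e] n) (hn.trans (hit _ n hn))
      rw [← Nat.add_assoc, Function.iterate_succ_apply', pow_succ]
      calc lam ^ e * lam * (g^[m] n : ℕ) = lam * (lam ^ e * (g^[m] n : ℕ)) := by ring
        _ ≤ lam * (g^[m + e] n : ℕ) := by gcongr
        _ ≤ _ := h2
  -- the constants
  obtain ⟨q, hq⟩ : ∃ q : ℕ, q = Fintype.card A := ⟨_, rfl⟩
  obtain ⟨hh, hh1⟩ : ∃ hh : ℕ, 2 * (q + 1) / ε ≤ lam ^ hh := by
    obtain ⟨t, ht⟩ := pow_unbounded_of_one_lt (2 * (q + 1) / ε) hlam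
    exact ⟨t, ht.le⟩
  obtain ⟨η, hη⟩ : ∃ η : ℝ, η = (lam ^ hh)⁻¹ := ⟨_, rfl⟩
  have hη0 : 0 < η := by rw [hη]; positivity
  have hη1 : (q + 1) * η ≤ ε / 2 := by
    rw [hη, ← div_eq_mul_inv, div_le_iff₀ (by positivity)]
    rw [div_le_iff₀ hε] at hh1
    linarith
  obtain ⟨P, hP⟩ : ∃ P, P = g^[hh] B' := ⟨_, rfl⟩
  have hPn : n₁ ≤ P := by rw [hP]; exact hB2.trans (hit _ _ hB2)
  have hP1 : 1 ≤ P := by rw [hP]; exact hB3.trans (hit _ _ hB2)
  obtain ⟨e, he⟩ : ∃ e : ℕ, 1 + ε ≤ lam ^ e := by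
    obtain ⟨t, ht⟩ := pow_unbounded_of_one_lt (1 + ε) hlam
    exact ⟨t, ht.le⟩
  obtain ⟨P₂, hP₂⟩ : ∃ P₂, P₂ = g^[1 + e] P := ⟨_, rfl⟩
  obtain ⟨δ, hδ⟩ : ∃ δ : ℝ, δ = ε / (4 * (P₂ + 1)) := ⟨_, rfl⟩
  have hδ0 : 0 < δ := by rw [hδ]; positivity
  refine ⟨δ / 2, by positivity, ?_⟩
  filter_upwards [eventually_ge_atTop P] with M hM
  have hM0 : (0 : ℝ) < M := by exact_mod_cast (by omega : 0 < M)
  -- the level
  obtain ⟨m, hm1, hm2⟩ : ∃ m, g^[m] P ≤ M ∧ M < g^[m + 1] P := by
    have hex : ∃ m, M < g^[m] P := by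
      obtain ⟨t, ht⟩ := pow_unbounded_of_one_lt (M : ℝ) hlam
      refine ⟨t, ?_⟩
      have h1 := hpow t 0 P hPn
      rw [Nat.zero_add, Function.iterate_zero, id] at h1
      have h2 : (M : ℝ) < (g^[t] P : ℕ) := by
        refine lt_of_lt_of_le ht (le_trans ?_ h1)
        have : (1 : ℝ) ≤ P := by exact_mod_cast hP1
        have h3 : (0 : ℝ) < lam ^ t := by positivity
        nlinarith
      exact_mod_cast h2
    have h0 : Nat.find hex ≠ 0 := by
      intro h0
      have := Nat.find_spec hex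
      rw [h0] at this
      simp only [Function.iterate_zero, id] at this
      omega
    refine ⟨Nat.find hex - 1, not_lt.1 (Nat.find_min hex (by omega)), ?_⟩
    rw [Nat.sub_add_cancel (by omega)]
    exact Nat.find_spec hex
  -- block sizes
  have hsize : ∀ i, ∃ l, g^[m] (i + 1) = g^[m] i + l ∧ (l : ℝ) ≤ η * M := by
    intro i
    obtain ⟨i₀, hi₀, hi₀'⟩ := hB i
    obtain ⟨l, h1, h2, _⟩ := blockm σ u hfix m i i₀ hi₀'.symm
    rw [← hg] at h1 h2
    refine ⟨l, h1, ?_⟩
    have h3 : l ≤ g^[m] B' := by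
      have : g^[m] (i₀ + 1) ≤ g^[m] B' := hmonom m (by omega)
      omega
    have h4 := hpow hh m B' hB2
    have h5 : g^[m + hh] B' ≤ M := by
      rw [Function.iterate_add_apply, ← hP]
      exact hm1
    have h6 : (l : ℝ) ≤ (g^[m] B' : ℕ) := by exact_mod_cast h3
    have h7 : ((g^[m + hh] B' : ℕ) : ℝ) ≤ M := by exact_mod_cast h5
    rw [hη, inv_mul_eq_div, le_div_iff₀ (by positivity)]
    calc (l : ℝ) * lam ^ hh ≤ (g^[m] B' : ℕ) * lam ^ hh := by gcongr
      _ = lam ^ hh * (g^[m] B' : ℕ) := by ring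
      _ ≤ M := h4.trans h7
  choose s hs1 hs2 using hsize
  -- the window
  have hup : (1 + ε) * M < (g^[m] P₂ : ℕ) := by
    have h1 := hpow e (m + 1) P hPn
    have h2 : g^[m] P₂ = g^[m + 1 + e] P := by
      rw [hP₂, ← Function.iterate_add_apply, Nat.add_assoc]
    rw [h2]
    refine lt_of_lt_of_le ?_ h1
    have h3 : (M : ℝ) < (g^[m + 1] P : ℕ) := by exact_mod_cast hm2
    have h4 : (0 : ℝ) < lam ^ e := by positivity
    calc (1 + ε) * M ≤ lam ^ e * M := by gcongr
      _ < lam ^ e * (g^[m + 1] P : ℕ) := by gcongr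
  have hex1 : ∃ i, M ≤ g^[m] i := by
    refine ⟨P₂, ?_⟩
    have : (M : ℝ) ≤ (g^[m] P₂ : ℕ) := by nlinarith
    exact_mod_cast this
  obtain ⟨i₁, hi₁⟩ : ∃ i₁, i₁ = Nat.find hex1 := ⟨_, rfl⟩
  have hi1 : M ≤ g^[m] i₁ := by rw [hi₁]; exact Nat.find_spec hex1
  have hg0 : g^[m] 0 = 0 := by
    have h0 : g 0 = 0 := by rw [hg]; simp [gl, image]
    clear hm1 hm2 hs1 hs2 hup hex1 hi1 hi₁
    induction m with
    | zero => rfl
    | succ m ih => rw [Function.iterate_succ_apply, h0, ih]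
  have hi1' : (g^[m] i₁ : ℕ) ≤ (1 + η) * M := by
    have h0 : i₁ ≠ 0 := by
      intro h0
      rw [h0, hg0] at hi1
      omega
    obtain ⟨i, rfl⟩ : ∃ i, i₁ = i + 1 := ⟨i₁ - 1, by omega⟩
    have h1 : g^[m] i < M := not_le.1 (Nat.find_min hex1 (by omega))
    have h2 := hs2 i
    rw [hs1 i]
    have h3 : ((g^[m] i : ℕ) : ℝ) ≤ M := by exact_mod_cast h1.le
    push_cast
    linarith
  have hex2 : ∃ i, (1 + ε) * M < (g^[m] i : ℕ) := ⟨P₂, hup⟩
  obtain ⟨i₂, hi₂⟩ : ∃ i₂, i₂ = Nat.find hex2 := ⟨_, rfl⟩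
  have hi2 : (1 + ε) * M < (g^[m] i₂ : ℕ) := by rw [hi₂]; exact Nat.find_spec hex2
  have hi2P : i₂ ≤ P₂ := by rw [hi₂]; exact Nat.find_min' hex2 hup
  have hlow : ∀ i, i < i₂ → (g^[m] i : ℕ) ≤ (1 + ε) * M := by
    intro i hi
    rw [hi₂] at hi
    exact not_lt.1 (Nat.find_min hex2 hi)
  have hi12 : i₁ ≤ i₂ := by
    rw [hi₁]
    apply Nat.find_min'
    have : (M : ℝ) ≤ (g^[m] i₂ : ℕ) := by nlinarith
    exact_mod_cast this
  -- the sum of the sizes
  have hsum : ∑ i ∈ Finset.Ico i₁ i₂, (s i : ℝ) = (g^[m] i₂ : ℕ) - (g^[m] i₁ : ℕ) := by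
    rw [← Finset.sum_Ico_sub (f := fun i => ((g^[m] i : ℕ) : ℝ)) hi12]
    refine Finset.sum_congr rfl fun i _ => ?_
    rw [hs1 i]
    push_cast
    ring
  -- two heavy blocks with the same letter
  obtain ⟨i, hi, j, hj, hij, huij, hhi⟩ : ∃ i ∈ Finset.Ico i₁ i₂, ∃ j ∈ Finset.Ico i₁ i₂,
      i < j ∧ u i = u j ∧ δ * M ≤ s i := by
    by_contra hcon
    push Not at hcon
    obtain ⟨H, hH⟩ : ∃ H, H = (Finset.Ico i₁ i₂).filter fun i => δ * M ≤ s i := ⟨_, rfl⟩
    have hcard : H.card ≤ q := by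
      rw [hq, ← Finset.card_univ]
      refine Finset.card_le_card_of_injOn u (fun _ _ => Finset.mem_univ _) ?_
      intro x hx y hy hxy
      have hx' : x ∈ H := hx
      have hy' : y ∈ H := hy
      rw [hH, Finset.mem_filter] at hx' hy'
      rcases Nat.lt_trichotomy x y with h | h | h
      · exact absurd hx'.2 (not_le.2 (hcon x hx'.1 y hy'.1 h hxy))
      · exact h
      · exact absurd hy'.2 (not_le.2 (hcon y hy'.1 x hx'.1 h hxy.symm))
    have h1 : ∑ i ∈ Finset.Ico i₁ i₂, (s i : ℝ) ≤ q * (η * M) + P₂ * (δ * M) := by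
      rw [← Finset.sum_filter_add_sum_filter_not (Finset.Ico i₁ i₂) (fun i => δ * M ≤ s i)]
      apply add_le_add
      · rw [← hH]
        calc ∑ i ∈ H, (s i : ℝ) ≤ ∑ i ∈ H, (η * M) := Finset.sum_le_sum fun i _ => hs2 i
          _ = H.card * (η * M) := by rw [Finset.sum_const, nsmul_eq_mul]
          _ ≤ q * (η * M) := by
              have : (H.card : ℝ) ≤ q := by exact_mod_cast hcard
              gcongr
      · calc ∑ i ∈ (Finset.Ico i₁ i₂).filter (fun i => ¬ δ * M ≤ s i), (s i : ℝ) ≤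
            ∑ i ∈ (Finset.Ico i₁ i₂).filter (fun i => ¬ δ * M ≤ s i), (δ * M) := by
              refine Finset.sum_le_sum fun i hi => ?_
              rw [Finset.mem_filter] at hi
              exact (not_le.1 hi.2).le
          _ = ((Finset.Ico i₁ i₂).filter (fun i => ¬ δ * M ≤ s i)).card * (δ * M) := by
              rw [Finset.sum_const, nsmul_eq_mul]
          _ ≤ P₂ * (δ * M) := by
              have h2 : ((Finset.Ico i₁ i₂).filter (fun i => ¬ δ * M ≤ s i)).card ≤ P₂ := by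
                refine (Finset.card_filter_le _ _).trans ?_
                rw [Nat.card_Ico]
                omega
              have h3 : ((((Finset.Ico i₁ i₂).filter (fun i => ¬ δ * M ≤ s i)).card : ℕ) : ℝ) ≤
                  P₂ := by exact_mod_cast h2
              gcongr
    rw [hsum] at h1
    have h2 : (P₂ : ℝ) * δ ≤ ε / 4 := by
      rw [hδ]
      have : (0 : ℝ) ≤ P₂ := Nat.cast_nonneg _
      rw [mul_div_assoc', div_le_div_iff₀ (by positivity) (by norm_num)]
      nlinarith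
    have h3 : (1 + ε) * M - (1 + η) * M < q * (η * M) + P₂ * (δ * M) := by linarith
    have h4 : ε * M < ((q + 1) * η + P₂ * δ) * M := by nlinarith
    have h5 : ε < (q + 1) * η + P₂ * δ := lt_of_mul_lt_mul_right h4 hM0.le
    linarith
  rw [Finset.mem_Ico] at hi hj
  obtain ⟨l, h1, h2, h3⟩ := blockm σ u hfix m i j huij
  rw [← hg] at h1 h2 h3
  have hsl : s i = l := by
    have := hs1 i
    omega
  have hl : δ * M ≤ l := by rw [← hsl]; exact hhi
  have hl0 : 0 < l := by
    have : (0 : ℝ) < l := lt_of_lt_of_le (by positivity) hl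
    exact_mod_cast this
  refine ⟨g^[m] i, g^[m] j, ?_, ?_, ?_, ?_⟩
  · exact hi1.trans (hmonom m hi.1)
  · have : g^[m] (i + 1) ≤ g^[m] j := hmonom m hij
    omega
  · exact hlow j hj.2
  · intro t ht
    rw [hφ, hφ]
    congr 1
    apply h3
    have : (t : ℝ) < l := by
      refine lt_of_le_of_lt ht (lt_of_lt_of_le ?_ hl)
      nlinarith
    exact_mod_cast this

end MPacdPD
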